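import Pool.Agent.Q165.StrongDef
import Pool.Agent.Q165.StrongCount

/-!
# The number of permutations that strongly avoid 321 and 1342
-/

set_option autoImplicit false

namespace Pool.Agent.Results.MP_aa036a_co.StrongCount

open Q165.Strong

/-- For every `n ≥ 1`, the number of permutations `π` of `n` letters such that both `π` and `π²`
avoid `321` and `1342` is `2 F_{n+2} - n - 2`. -/
theorem result : ∀ n : ℕ, 1 ≤ n → (savCount n : ℤ) = 2 * Nat.fib (n + 2) - n - 2 := by
  intro n hn
  have h := count_main hn
  have h' : ((savCount n + n + 2 : ℕ) : ℤ) = ((2 * Nat.fib (n + 2) : ℕ) : ℤ) := by rw [h]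
  push_cast at h'
  linarith

end Pool.Agent.Results.MP_aa036a_co.StrongCount
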